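import Pool.Agent.W648.UN.Stm2

/-! # UN-ARC: one branch of an orbit -/

set_option autoImplicit false

open MeasureTheory Set Filter Topology
open scoped ContDiff

noncomputable section

namespace W125.UN

open Pool.Agent.W648.UN

/-- the integral of `(1-s)^(-3/4)` -/
lemma int_w : IntegrableOn (fun s : ℝ => (1 - s) ^ (-(3 / 4) : ℝ)) (Ioo (0 : ℝ) 1) ∧
    ∫ s in Ioo (0 : ℝ) 1, (1 - s) ^ (-(3 / 4) : ℝ) = 4 := by
  have h1 : IntervalIntegrable (fun s : ℝ => s ^ (-(3 / 4) : ℝ)) volume 0 1 :=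
    intervalIntegral.intervalIntegrable_rpow' (by norm_num)
  have h2 : IntervalIntegrable (fun s : ℝ => (1 - s) ^ (-(3 / 4) : ℝ)) volume 0 1 := by
    have := h1.comp_sub_left 1
    simp only [sub_zero, sub_self] at this
    exact this.symm
  constructor
  · rw [intervalIntegrable_iff_integrableOn_Ioo_of_le zero_le_one] at h2
    exact h2
  · rw [← integral_Ioc_eq_integral_Ioo, ← intervalIntegral.integral_of_le zero_le_one,
      intervalIntegral.integral_comp_sub_left (fun s : ℝ => s ^ (-(3 / 4) : ℝ)) 1]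
    simp only [sub_zero, sub_self]
    rw [integral_rpow (Or.inl (by norm_num))]
    norm_num

lemma nbH (H : ℝ → ℝ) (hc : ContinuousOn H (Ioo 0 1))
    (hb : ∀ x ∈ Ioo (0 : ℝ) 1, |H x| ≤ 1 / 200) :
    NB (fun x => ((H x : ℝ) : ℂ)) (1 / 20) := by
  have hm : AEStronglyMeasurable (fun x => ((H x : ℝ) : ℂ)) (volume.restrict (Ioo (0 : ℝ) 1)) :=
    (Complex.continuous_ofReal.comp_continuousOn hc).aestronglyMeasurable measurableSet_Ioo
  have hdom : ∀ᵐ s ∂(volume.restrict (Ioo (0 : ℝ) 1)),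
      ‖‖((H s : ℝ) : ℂ)‖ * (1 - s) ^ (-(3 / 4) : ℝ)‖ ≤ (1 / 200) * (1 - s) ^ (-(3 / 4) : ℝ) := by
    filter_upwards [ae_restrict_mem measurableSet_Ioo] with s hs
    have h0 : 0 ≤ (1 - s) ^ (-(3 / 4) : ℝ) := Real.rpow_nonneg (by linarith [hs.2]) _
    rw [norm_mul, norm_norm, Complex.norm_real, Real.norm_eq_abs, Real.norm_of_nonneg h0]
    exact mul_le_mul_of_nonneg_right (hb s hs) h0
  have hi : IntegrableOn (fun s : ℝ => ‖((H s : ℝ) : ℂ)‖ * (1 - s) ^ (-(3 / 4) : ℝ))
      (Ioo (0 : ℝ) 1) := by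
    refine Integrable.mono' (int_w.1.const_mul (1 / 200)) ?_ hdom
    exact hm.norm.mul int_w.1.aestronglyMeasurable
  refine ⟨hm, hi, ?_⟩
  calc ∫ s in Ioo (0 : ℝ) 1, ‖((H s : ℝ) : ℂ)‖ * (1 - s) ^ (-(3 / 4) : ℝ)
      ≤ ∫ s in Ioo (0 : ℝ) 1, (1 / 200) * (1 - s) ^ (-(3 / 4) : ℝ) := by
        refine integral_mono_ae hi (int_w.1.const_mul (1 / 200)) ?_
        filter_upwards [hdom] with s hs
        exact (le_abs_self _).trans hs
    _ = (1 / 200) * 4 := by rw [integral_const_mul, int_w.2]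
    _ ≤ 1 / 20 := by norm_num

theorem th (hD : S_D) (hE : S_EX) (hU : S_UN) (hUps : S_UPS) (_hF : S_CONJ) : S_ARC := by
  intro H hc hb
  have hNB := nbH H hc hb
  have hOm : (0 : ℂ) ∈ Om := by simp [Om]
  set K : ℝ → ℂ := fun x => ((H x : ℝ) : ℂ) with hK
  obtain ⟨p, q, E, hS⟩ := hE ℂ K 0 hNB hOm
  have hDr : ∀ x ∈ Icc (0 : ℝ) 1, D 0 x = ((Real.sqrt (1 - x ^ 2) : ℝ) : ℂ) := by
    intro x hx
    have := hD.2.2.2.2 0 le_rfl x hx
    simpa using this
  have hDc : ∀ x ∈ Icc (0 : ℝ) 1, (starRingEnd ℂ) (D 0 x) = D 0 x := by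
    intro x hx
    rw [hDr x hx, Complex.conj_ofReal]
  have h2c : (starRingEnd ℂ) 2 = 2 := by
    rw [show (2 : ℂ) = ((2 : ℝ) : ℂ) by norm_num, Complex.conj_ofReal]
  -- the conjugate solution
  have hS' : Sol K 0 (fun x => (starRingEnd ℂ) (p x)) (fun x => (starRingEnd ℂ) (q x))
      (fun x => (starRingEnd ℂ) (E x)) := by
    refine ⟨Complex.continuous_conj.comp_continuousOn hS.cp,
      Complex.continuous_conj.comp_continuousOn hS.cq,
      Complex.continuous_conj.comp_continuousOn hS.cE, ?_, ?_, ?_, ?_, ?_⟩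
    · intro x hx
      have := hS.bp x hx
      rw [← Complex.norm_conj] at this
      simpa using this
    · intro x hx
      have := hS.bE x hx
      rw [← Complex.norm_conj] at this
      simpa using this
    · intro x hx
      have := congrArg (starRingEnd ℂ) (hS.pq x hx)
      simpa using this
    · intro x hx
      have := congrArg (starRingEnd ℂ) (hS.ep x hx)
      have hx1 : x ∈ Icc (0 : ℝ) 1 := ⟨hx.1, hx.2.le⟩
      simp only [smul_eq_mul, map_add, map_mul, map_pow, map_one, map_inv₀, hDc x hx1, h2c] at this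
      rw [this, smul_eq_mul]
      congr 2
      rw [intervalIntegral.integral_of_le hx.2.le, intervalIntegral.integral_of_le hx.2.le,
        ← integral_conj]
      refine setIntegral_congr_fun measurableSet_Ioc ?_
      intro s hs
      have hs1 : s ∈ Icc (0 : ℝ) 1 := ⟨hx.1.trans hs.1.le, hs.2⟩
      simp only [smul_eq_mul, map_mul, hDc s hs1, hK, Complex.conj_ofReal]
    · intro x hx
      have := congrArg (starRingEnd ℂ) (hS.eE x hx)
      rw [this]
      simp only [map_add, map_one]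
      congr 1
      rw [intervalIntegral.integral_of_le hx.2.le, intervalIntegral.integral_of_le hx.2.le,
        ← integral_conj]
      refine setIntegral_congr_fun measurableSet_Ioc ?_
      intro s hs
      have hs1 : s ∈ Icc (0 : ℝ) 1 := ⟨hx.1.trans hs.1.le, hs.2⟩
      simp only [smul_eq_mul, map_mul, map_inv₀, hDc s hs1, hK, Complex.conj_ofReal]
  have hreal : ∀ x ∈ Ico (0 : ℝ) 1, p x = (((p x).re : ℝ) : ℂ) := by
    intro x hx
    have := (hU ℂ K 0 p q E _ _ _ hNB hOm hS hS' x hx).1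
    exact (Complex.conj_eq_iff_re.mp this.symm).symm
  set P : ℝ → ℝ := fun x => (p x).re with hP
  have hPb : ∀ x ∈ Ico (0 : ℝ) 1, |P x - 1| ≤ 1 / 4 := by
    intro x hx
    have := hS.bp x hx
    rw [hreal x hx] at this
    rw [← Complex.ofReal_one, ← Complex.ofReal_sub, Complex.norm_real, Real.norm_eq_abs] at this
    exact this
  have hPl : ∀ x ∈ Ico (0 : ℝ) 1, 3 / 4 ≤ P x ∧ P x ≤ 5 / 4 := by
    intro x hx
    have := abs_le.mp (hPb x hx)
    constructor <;> linarith [this.1, this.2]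
  have hPc : ContinuousOn P (Ico 0 1) := Complex.continuous_re.comp_continuousOn hS.cp
  set d : ℝ → ℝ := fun x => Real.sqrt (1 - x ^ 2) with hd
  have hdc : Continuous d := by fun_prop
  have hdpos : ∀ x ∈ Ico (0 : ℝ) 1, 0 < d x := by
    intro x hx
    apply Real.sqrt_pos.mpr
    nlinarith [hx.1, hx.2]
  have hd2 : ∀ x ∈ Icc (0 : ℝ) 1, d x ^ 2 = 1 - x ^ 2 := by
    intro x hx
    apply Real.sq_sqrt
    nlinarith [hx.1, hx.2]
  set N : ℝ → ℝ := fun x => d x * P x with hN
  have hNpos : ∀ x ∈ Ico (0 : ℝ) 1, 0 < N x := by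
    intro x hx
    exact mul_pos (hdpos x hx) (by linarith [(hPl x hx).1])
  have hN1 : N 1 = 0 := by
    simp [hN, hd]
  have hNle : ∀ x ∈ Icc (0 : ℝ) 1, |N x| ≤ (5 / 4) * d x := by
    intro x hx
    rcases hx.2.lt_or_eq with h | h
    · have hx' : x ∈ Ico (0 : ℝ) 1 := ⟨hx.1, h⟩
      rw [abs_of_pos (hNpos x hx')]
      simp only [hN]
      nlinarith [hdpos x hx', (hPl x hx').2]
    · rw [h, hN1, abs_zero]
      exact mul_nonneg (by norm_num) (Real.sqrt_nonneg _)
  have hNc : ContinuousOn N (Icc 0 1) := by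
    intro x hx
    rcases hx.2.lt_or_eq with h | h
    · have hx' : x ∈ Ico (0 : ℝ) 1 := ⟨hx.1, h⟩
      have h1 : ContinuousWithinAt N (Ico 0 1) x := hdc.continuousWithinAt.mul (hPc x hx')
      refine h1.mono_of_mem_nhdsWithin ?_
      rw [← Ici_inter_Iio, ← Ici_inter_Iic]
      refine inter_mem ?_ ?_
      · exact mem_of_superset self_mem_nhdsWithin inter_subset_left
      · exact mem_nhdsWithin_of_mem_nhds (Iio_mem_nhds h)
    · subst h
      rw [ContinuousWithinAt, hN1]
      have h1 : Tendsto (fun x => (5 / 4) * d x) (𝓝[Icc 0 1] 1) (𝓝 0) := by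
        have h2 : Tendsto (fun x => (5 / 4) * d x) (𝓝 1) (𝓝 ((5 / 4) * d 1)) :=
          (continuous_const.mul hdc).tendsto 1
        have h3 : d 1 = 0 := by simp [hd]
        rw [h3, mul_zero] at h2
        exact h2.mono_left nhdsWithin_le_nhds
      refine squeeze_zero_norm' ?_ h1
      filter_upwards [self_mem_nhdsWithin] with y hy
      exact hNle y hy
  have hHN : ∀ x ∈ Ico (0 : ℝ) 1, IntervalIntegrable (fun s => H s * N s) volume x 1 := by
    intro x hx
    rw [intervalIntegrable_iff_integrableOn_Ioo_of_le hx.2.le]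
    have hsub : Ioo x 1 ⊆ Ioo 0 1 := Ioo_subset_Ioo_left hx.1
    have hm : AEStronglyMeasurable (fun s => H s * N s) (volume.restrict (Ioo x 1)) :=
      ((hc.mono hsub).mul (hNc.mono (hsub.trans Ioo_subset_Icc_self))).aestronglyMeasurable
        measurableSet_Ioo
    refine Integrable.mono' (g := fun _ => (1 : ℝ)) ?_ hm ?_
    · exact integrableOn_const (by simp) 
    · filter_upwards [ae_restrict_mem measurableSet_Ioo] with s hs
      have hs1 := hsub hs
      have hdl : d s ≤ 1 := by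
        simp only [hd]
        apply Real.sqrt_le_one.mpr
        nlinarith [sq_nonneg s]
      rw [norm_mul, Real.norm_eq_abs, Real.norm_eq_abs]
      have h1 := hb s hs1
      have h2 := hNle s ⟨hs1.1.le, hs1.2.le⟩
      nlinarith [abs_nonneg (H s), abs_nonneg (N s)]
  have hsq : ∀ x ∈ Ico (0 : ℝ) 1, N x ^ 2 = 1 - x ^ 2 + 2 * ∫ s in x..1, H s * N s := by
    intro x hx
    have hx1 : x ∈ Icc (0 : ℝ) 1 := ⟨hx.1, hx.2.le⟩
    have h1 := hS.ep x hx
    have h2 : ∫ s in x..1, D 0 s • (K s * p s) = ((∫ s in x..1, H s * N s : ℝ) : ℂ) := by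
      rw [← intervalIntegral.integral_ofReal]
      apply intervalIntegral.integral_congr
      intro s hs
      rw [uIcc_of_le hx.2.le] at hs
      have hs1 : s ∈ Icc (0 : ℝ) 1 := ⟨hx.1.trans hs.1, hs.2⟩
      rcases hs.2.lt_or_eq with h | h
      · simp only [smul_eq_mul, hK]
        rw [hDr s hs1, hreal s ⟨hs1.1, h⟩]
        simp only [hN, hd, hP]
        push_cast
        ring
      · subst h
        have h3 : D 0 1 = 0 := by rw [hDr 1 hs1]; simp
        simp only [h3, hN1]
        simp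
    rw [h2, hreal x hx, hDr x hx1, smul_eq_mul] at h1
    have h4 : P x ^ 2 = 1 + 2 * (d x)⁻¹ ^ 2 * ∫ s in x..1, H s * N s := by
      have : ((P x ^ 2 : ℝ) : ℂ) = ((1 + 2 * (d x)⁻¹ ^ 2 * ∫ s in x..1, H s * N s : ℝ) : ℂ) := by
        push_cast
        exact h1
      exact_mod_cast this
    have h5 := hd2 x hx1
    have h6 := hdpos x hx
    generalize (∫ s in x..1, H s * N s) = I at h4
    have h7 : N x ^ 2 = d x ^ 2 * P x ^ 2 := by
      simp only [hN, mul_pow]
    rw [h7, h4, ← h5]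
    field_simp
  have hder : ∀ x ∈ Ioo (0 : ℝ) 1, HasDerivAt N ((-x - H x * N x) / N x) x := by
    intro x hx
    have hx' : x ∈ Ico (0 : ℝ) 1 := ⟨hx.1.le, hx.2⟩
    have hop : Ioo (0 : ℝ) 1 ∈ 𝓝 x := Ioo_mem_nhds hx.1 hx.2
    have hcN : ContinuousAt N x := (hNc.mono Ioo_subset_Icc_self).continuousAt hop
    have hcH : ContinuousAt H x := hc.continuousAt hop
    have hI : HasDerivAt (fun u => ∫ s in u..1, H s * N s) (-(H x * N x)) x := by
      refine intervalIntegral.integral_hasDerivAt_left (hHN x hx') ?_ (hcH.mul hcN)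
      refine ContinuousOn.stronglyMeasurableAtFilter isOpen_Ioo
        (hc.mul (hNc.mono Ioo_subset_Icc_self)) x hx
    have h1 : HasDerivAt (fun u => 1 - u ^ 2 + 2 * ∫ s in u..1, H s * N s)
        (-(2 * x) + 2 * (-(H x * N x))) x := by
      have h2 : HasDerivAt (fun u : ℝ => 1 - u ^ 2) (-(2 * x)) x := by
        have := (hasDerivAt_pow 2 x).const_sub 1
        simpa using this
      exact h2.add (hI.const_mul 2)
    have h2 : HasDerivAt (fun u => N u ^ 2) (-(2 * x) + 2 * (-(H x * N x))) x := by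
      refine h1.congr_of_eventuallyEq ?_
      filter_upwards [hop] with u hu
      exact hsq u ⟨hu.1.le, hu.2⟩
    have hNx := hNpos x hx'
    have h3 := h2.sqrt (by positivity)
    have h4 : HasDerivAt N ((-(2 * x) + 2 * (-(H x * N x))) / (2 * Real.sqrt (N x ^ 2))) x := by
      refine h3.congr_of_eventuallyEq ?_
      filter_upwards [hop] with u hu
      exact (Real.sqrt_sq (hNpos u ⟨hu.1.le, hu.2⟩).le).symm
    rw [Real.sqrt_sq hNx.le] at h4
    convert h4 using 1
    field_simp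
    ring
  have hint : IntervalIntegrable (fun x => (N x)⁻¹) volume 0 1 := by
    rw [intervalIntegrable_iff_integrableOn_Ioo_of_le zero_le_one]
    have h1 : IntervalIntegrable (fun s : ℝ => s ^ (-(1 / 2) : ℝ)) volume 0 1 :=
      intervalIntegral.intervalIntegrable_rpow' (by norm_num)
    have h2 : IntervalIntegrable (fun s : ℝ => (1 - s) ^ (-(1 / 2) : ℝ)) volume 0 1 := by
      have := h1.comp_sub_left 1
      simp only [sub_zero, sub_self] at this
      exact this.symm
    rw [intervalIntegrable_iff_integrableOn_Ioo_of_le zero_le_one] at h2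
    refine Integrable.mono' (h2.const_mul (4 / 3)) ?_ ?_
    · refine ContinuousOn.aestronglyMeasurable ?_ measurableSet_Ioo
      refine (hNc.mono Ioo_subset_Icc_self).inv₀ ?_
      intro x hx
      exact (hNpos x ⟨hx.1.le, hx.2⟩).ne'
    · filter_upwards [ae_restrict_mem measurableSet_Ioo] with s hs
      have hs' : s ∈ Ico (0 : ℝ) 1 := ⟨hs.1.le, hs.2⟩
      have hNs := hNpos s hs'
      rw [Real.norm_of_nonneg (inv_nonneg.mpr hNs.le)]
      have h3 : (3 / 4) * Real.sqrt (1 - s) ≤ N s := by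
        have h4 : Real.sqrt (1 - s) ≤ d s := by
          apply Real.sqrt_le_sqrt
          nlinarith [hs.1, hs.2]
        simp only [hN]
        nlinarith [(hPl s hs').1, Real.sqrt_nonneg (1 - s), hdpos s hs']
      have h5 : 0 < Real.sqrt (1 - s) := Real.sqrt_pos.mpr (by linarith [hs.2])
      have h6 : (1 - s) ^ (-(1 / 2) : ℝ) = (Real.sqrt (1 - s))⁻¹ := by
        rw [Real.rpow_neg (by linarith [hs.2]), Real.sqrt_eq_rpow]
      rw [h6]
      calc (N s)⁻¹ ≤ ((3 / 4) * Real.sqrt (1 - s))⁻¹ := inv_anti₀ (by positivity) h3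
        _ = 4 / 3 * (Real.sqrt (1 - s))⁻¹ := by
          rw [mul_inv]
          norm_num
  refine ⟨N, hNc, hN1, hNpos, hder, hint, ?_⟩
  rw [(hUps ℂ K 0 p q E hNB hOm hS).2, tauOf, ← intervalIntegral.integral_ofReal]
  apply intervalIntegral.integral_congr
  intro s hs
  rw [uIcc_of_le zero_le_one] at hs
  rcases hs.2.lt_or_eq with h | h
  · have hs' : s ∈ Ico (0 : ℝ) 1 := ⟨hs.1, h⟩
    have h1 := hS.pq s hs'
    have h2 : q s = (p s)⁻¹ := eq_inv_of_mul_eq_one_right h1
    simp only [smul_eq_mul]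
    rw [h2, hDr s hs, hreal s hs', ← mul_inv]
    simp only [hN, hd, hP]
    push_cast
    rfl
  · subst h
    have h3 : D 0 1 = 0 := by rw [hDr 1 hs]; simp
    simp only [h3, hN1]
    simp

end W125.UN
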